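import Pool.Agent.H336R2.V.Main

/-!
# The lower bound for the variance of primes in arithmetic progressions, for every modulus

Friedlander and Goldston proved, assuming the generalized Riemann hypothesis, that
`G(X,Q) ≥ X (3/2 log Q - log X - ε log X)`; without a hypothesis they had this only for
`Q ≥ X / (log X)^A`. Here the hypothesis is removed: the bound holds for every modulus `Q ≤ X`.
The bound is nontrivial for `Q ≥ X^(2/3+ε)`. The proof is in the starting library `H336R2/V`.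
-/

set_option autoImplicit false

namespace Pool.Agent.Results.MP_5dd4bb_nt.EveryModulusLower

open Finset

/-- `ψ(X; Q, A) = ∑_{n ≤ X, n ≡ A mod Q} Λ(n)` for `0 ≤ A < Q`. -/
noncomputable def psiAP (X : ℝ) (Q A : ℕ) : ℝ :=
  ∑ n ∈ (Icc 1 ⌊X⌋₊).filter (fun n => n % Q = A), ArithmeticFunction.vonMangoldt n

/-- The variance `G(X,Q) = ∑_{A mod Q, (A,Q)=1} (ψ(X;Q,A) - X/φ(Q))²`. -/
noncomputable def G (X : ℝ) (Q : ℕ) : ℝ :=
  ∑ A ∈ (range Q).filter (fun A => Nat.Coprime A Q), (psiAP X Q A - X / (Nat.totient Q : ℝ)) ^ 2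

lemma G_eq (X : ℝ) (Q : ℕ) : G X Q = H336V.GV X Q := by
  unfold G H336V.GV
  apply sum_congr rfl
  intro A hA
  rw [mem_filter, mem_range] at hA
  have h : psiAP X Q A = H336V.psiA X Q A := by
    unfold psiAP H336V.psiA
    apply sum_congr _ (fun _ _ => rfl)
    apply filter_congr
    intro n _
    unfold Nat.ModEq
    rw [Nat.mod_eq_of_lt hA.1]
  rw [h]

/-- **Lower bound for the variance, every modulus.** For every `ε > 0` there is `X₀` such that for all real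
`X ≥ X₀` and ALL integers `1 ≤ Q ≤ X` one has `G(X,Q) ≥ X (3/2 log Q - log X - ε log X)`. In particular
(second assertion) for every `ε > 0` there is `X₀` such that for `X ≥ X₀` and all integers `Q` with
`X^(2/3+2ε) ≤ Q ≤ X` one has `G(X,Q) ≥ 2ε X log X`. -/
theorem result :
    (∀ ε : ℝ, 0 < ε → ∃ X₀ : ℝ, ∀ X : ℝ, X₀ ≤ X → ∀ Q : ℕ, 1 ≤ Q → (Q : ℝ) ≤ X →
      X * (3 / 2 * Real.log Q - Real.log X - ε * Real.log X) ≤ G X Q) ∧
    (∀ ε : ℝ, 0 < ε → ∃ X₀ : ℝ, ∀ X : ℝ, X₀ ≤ X → ∀ Q : ℕ, X ^ ((2 : ℝ) / 3 + 2 * ε) ≤ (Q : ℝ) →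
      (Q : ℝ) ≤ X → 2 * ε * (X * Real.log X) ≤ G X Q) := by
  have h1 : ∀ ε : ℝ, 0 < ε → ∃ X₀ : ℝ, ∀ X : ℝ, X₀ ≤ X → ∀ Q : ℕ, 1 ≤ Q → (Q : ℝ) ≤ X →
      X * (3 / 2 * Real.log Q - Real.log X - ε * Real.log X) ≤ G X Q := by
    intro ε hε
    obtain ⟨X₀, h⟩ := H336V.main ε hε
    exact ⟨X₀, fun X hX Q hQ hQX => by rw [G_eq]; exact h X hX Q hQ hQX⟩
  refine ⟨h1, fun ε hε => ?_⟩
  obtain ⟨X₀, h⟩ := h1 ε hε
  refine ⟨max X₀ 2, fun X hX Q hQ hQX => ?_⟩
  have hX0 : X₀ ≤ X := le_trans (le_max_left _ _) hX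
  have hX2 : (2 : ℝ) ≤ X := le_trans (le_max_right _ _) hX
  have hXp : 0 < X := by linarith
  have hpos : 0 < X ^ ((2 : ℝ) / 3 + 2 * ε) := Real.rpow_pos_of_pos hXp _
  have hQ1 : 1 ≤ Q := by
    have : (0 : ℝ) < Q := lt_of_lt_of_le hpos hQ
    exact_mod_cast this
  refine le_trans ?_ (h X hX0 Q hQ1 hQX)
  have hl : ((2 : ℝ) / 3 + 2 * ε) * Real.log X ≤ Real.log Q := by
    rw [← Real.log_rpow hXp]
    exact Real.log_le_log hpos hQ
  have hlog : 0 ≤ Real.log X := Real.log_nonneg (by linarith)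
  have h2 : 2 * ε * Real.log X ≤ 3 / 2 * Real.log Q - Real.log X - ε * Real.log X := by
    nlinarith
  calc 2 * ε * (X * Real.log X) = X * (2 * ε * Real.log X) := by ring
    _ ≤ _ := by gcongr

end Pool.Agent.Results.MP_5dd4bb_nt.EveryModulusLower
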