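import Pool.Agent.Results.MP_5dd4bb_nt.SparseModuli
import Pool.Agent.R482.ST.Star

/-!
# The lower bound in the asymptotic formula for the variance, for all moduli near powers and orbits

Let `f_k`, `k = 0, 1, 2, …`, be positive functions on `(a, ∞)`, `a ≥ 0`, such that `f_k(t) / t` is nondecreasing, and such
that the sequence `f_k(t)` has exponent of convergence at most `τ` for each `t > a`: for instance `f_k(t) = t ^ (v_k)` for
exponents `v_k ≥ 1` (`τ = 0`; all powers, the powers `t ^ (3 ^ k)` of Mills, …), the orbits `f_k(t) = g (g (⋯ g (t)))` of any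
map `g` with `g(t) > t` and `g(t) / t` nondecreasing (`τ = 0`; for instance of `t² + c`), and `f_k(t) = v_k t`.

(1) For every `ε > 0` there is `η > 0` such that for all `α > a` outside a set of Hausdorff dimension at most
`(1 - η + τ) / (1 - θ)` (less than one if `θ + τ < η`) and for all but finitely many `k`, EVERY modulus `Q` with
`|Q - f_k(α)| ≤ c f_k(α) ^ θ` satisfies `G(X,Q) ≥ X (log Q - 1/2 log X - ε log X)` for ALL real `X ≥ Q` at once.

(2) If `τ = 0`, then for almost every `α > a` and every `ε > 0` there is `θ > 0` such that this holds for all the moduli `Q`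
with `|Q - f_k(α)| ≤ f_k(α) ^ θ`, for all but finitely many `k`.
-/

set_option autoImplicit false

namespace Pool.Agent.Results.MP_5dd4bb_nt.StarshapedModuli

open Finset Filter Topology MeasureTheory
open SparseModuli (G Exceptional Good Bad not_good exc_mono count)

/-- the functions `f n` are positive on `(a, ∞)`, `a ≥ 0`, and `f n x / x` is nondecreasing there -/
def Starshaped (a : ℝ) (f : ℕ → ℝ → ℝ) : Prop :=
  0 ≤ a ∧ ∀ n : ℕ, ∀ x y : ℝ, a < x → x ≤ y → 0 < f n x ∧ f n x / x ≤ f n y / y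

/-- for each `x > a` the exponent of convergence of the sequence `f n x` is at most `τ` -/
def ExpLe (a : ℝ) (f : ℕ → ℝ → ℝ) (τ : ℝ) : Prop :=
  ∀ x : ℝ, a < x → ∀ t : ℝ, τ < t → Summable (fun n : ℕ => (f n x) ^ (-t))

/-- all the integers `Q` in the windows of radius `c (f k α) ^ θ` around `f k α`, for all but finitely many `k`, are
`≥ 1` and satisfy `G(X, Q) ≥ X (log Q - 1/2 log X - ε log X)` for all real `X ≥ Q` -/
def AllGood (f : ℕ → ℝ → ℝ) (ε θ c α : ℝ) : Prop :=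
  ∃ k₀ : ℕ, ∀ k : ℕ, k₀ ≤ k → ∀ Q : ℕ, |(Q : ℝ) - f k α| ≤ c * (f k α) ^ θ →
    1 ≤ Q ∧ ∀ X : ℝ, (Q : ℝ) ≤ X → X * (Real.log Q - 1 / 2 * Real.log X - ε * Real.log X) ≤ G X Q

lemma part1 (ε : ℝ) (hε : 0 < ε) : ∃ η : ℝ, 0 < η ∧ η ≤ 1 ∧ ∀ (a : ℝ) (f : ℕ → ℝ → ℝ) (τ θ : ℝ),
    Starshaped a f → 0 ≤ τ → ExpLe a f τ → θ < 1 →
    ∃ E : Set ℝ, dimH E ≤ ENNReal.ofReal ((1 - η + τ) / (1 - θ)) ∧
      ∀ α : ℝ, a < α → α ∉ E → ∀ c : ℝ, AllGood f ε θ c α := by
  classical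
  obtain ⟨η₀, hη₀, C, hC⟩ := count ε hε
  have hm0 : 0 < min η₀ 1 := lt_min hη₀ one_pos
  refine ⟨min η₀ 1, hm0, min_le_right _ _, fun a f τ θ hf hτ hE hθ => ?_⟩
  obtain ⟨E, h1, h2⟩ := Pool.Agent.R482.ST.win_nat (Bad ε) hf hτ hE
    (s := 1 - min η₀ 1) (by have := min_le_right η₀ 1; linarith) hθ (fun ε' hε' => by
      refine ⟨|C|, fun X hX => ?_⟩
      have hX1 : (1 : ℝ) ≤ X := by exact_mod_cast hX
      have h3 := hC X
      have h4 : C * (X : ℝ) ^ (1 - η₀) ≤ |C| * (X : ℝ) ^ (1 - min η₀ 1 + ε') :=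
        (mul_le_mul_of_nonneg_right (le_abs_self C) (by positivity)).trans
          (mul_le_mul_of_nonneg_left (Real.rpow_le_rpow_of_exponent_le hX1 (by
            have := min_le_left η₀ 1
            linarith)) (abs_nonneg C))
      refine le_trans (le_of_eq ?_) (h3.trans h4)
      congr 2)
  refine ⟨E, h1, fun α hα hαE c => ?_⟩
  obtain ⟨k₀, hk⟩ := h2 α hα hαE c
  refine ⟨k₀, fun k hk1 Q hQ => ?_⟩
  by_contra hcon
  exact (hk k hk1 Q hQ).2 (not_good hcon)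

lemma allGood_mono {f : ℕ → ℝ → ℝ} {ε ε' θ c α : ℝ} (h : ε' ≤ ε) (hg : AllGood f ε' θ c α) :
    AllGood f ε θ c α := by
  obtain ⟨k₀, hk⟩ := hg
  refine ⟨k₀, fun k hk1 Q hQ => ?_⟩
  obtain ⟨h1, h2⟩ := hk k hk1 Q hQ
  refine ⟨h1, fun X hX => le_trans ?_ (h2 X hX)⟩
  have hQ1 : (1 : ℝ) ≤ Q := by exact_mod_cast h1
  have hX0 : 0 ≤ X := by linarith
  have hl : 0 ≤ Real.log X := Real.log_nonneg (by linarith)
  apply mul_le_mul_of_nonneg_left _ hX0
  have := mul_le_mul_of_nonneg_right h hl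
  linarith

/-- **Theorem.** (1) For every `ε > 0` there is `η ∈ (0, 1]` such that for all starshaped functions `f` on `(a, ∞)` of
exponent of convergence at most `τ ≥ 0` and all `θ < 1` there is a set `E` of Hausdorff dimension at most
`(1 - η + τ) / (1 - θ)` such that for all `α > a` outside `E`, all `c` and all but finitely many `k`, every modulus `Q` with
`|Q - f_k(α)| ≤ c f_k(α) ^ θ` satisfies `G(X,Q) ≥ X (log Q - 1/2 log X - ε log X)` for all real `X ≥ Q`. This dimension is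
less than one if `θ + τ < η`.
(2) For all starshaped functions `f` on `(a, ∞)` of exponent of convergence `0` and almost every `α > a`: for every `ε > 0`
there is `θ > 0` such that for all but finitely many `k` every modulus `Q` with `|Q - f_k(α)| ≤ f_k(α) ^ θ` satisfies
`G(X,Q) ≥ X (log Q - 1/2 log X - ε log X)` for all real `X ≥ Q`.
(3) Examples. The functions `v_n x`, `v_n > 0`, are starshaped on `(0, ∞)`, of exponent `τ` if `v` has exponent of
convergence at most `τ`; the functions `x ^ (v_n)`, `v_n ≥ 1`, are starshaped on `(1, ∞)`, of exponent `0` if the sums of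
`exp (-t v_n)` converge for `t > 0`; and the iterates of a map `g` with `g(x) > x` for `x > a` and `g(x) / x` nondecreasing
are starshaped on `(a, ∞)`, of exponent `0`. -/
theorem result :
    (∀ ε : ℝ, 0 < ε → ∃ η : ℝ, 0 < η ∧ η ≤ 1 ∧ ∀ (a : ℝ) (f : ℕ → ℝ → ℝ) (τ θ : ℝ),
      Starshaped a f → 0 ≤ τ → ExpLe a f τ → θ < 1 →
      ∃ E : Set ℝ, dimH E ≤ ENNReal.ofReal ((1 - η + τ) / (1 - θ)) ∧
        (θ + τ < η → dimH E < 1) ∧ ∀ α : ℝ, a < α → α ∉ E → ∀ c : ℝ, AllGood f ε θ c α) ∧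
    (∀ (a : ℝ) (f : ℕ → ℝ → ℝ), Starshaped a f → ExpLe a f 0 →
      ∀ᵐ α : ℝ, a < α → ∀ ε : ℝ, 0 < ε → ∃ θ : ℝ, 0 < θ ∧ AllGood f ε θ 1 α) ∧
    (∀ (v : ℕ → ℝ) (τ : ℝ), (∀ n, 0 < v n) → (∀ t : ℝ, τ < t → Summable (fun n : ℕ => (v n) ^ (-t))) →
      Starshaped 0 (fun n x => v n * x) ∧ ExpLe 0 (fun n x => v n * x) τ) ∧
    (∀ v : ℕ → ℝ, (∀ n, 1 ≤ v n) → (∀ t : ℝ, 0 < t → Summable fun n : ℕ => Real.exp (-(t * v n))) →
      Starshaped 1 (fun n x => x ^ (v n)) ∧ ExpLe 1 (fun n x => x ^ (v n)) 0) ∧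
    (∀ (a : ℝ) (g : ℝ → ℝ), 0 ≤ a → (∀ x y : ℝ, a < x → x ≤ y → g x / x ≤ g y / y) → (∀ x : ℝ, a < x → x < g x) →
      Starshaped a (fun n x => g^[n] x) ∧ ExpLe a (fun n x => g^[n] x) 0) := by
  have hdim : ∀ {η τ θ : ℝ} {E : Set ℝ}, 0 ≤ τ → θ < 1 →
      dimH E ≤ ENNReal.ofReal ((1 - η + τ) / (1 - θ)) → θ + τ < η → dimH E < 1 := by
    intro η τ θ E hτ hθ hE h
    refine lt_of_le_of_lt hE ?_
    have h1 : (1 : ENNReal) = ENNReal.ofReal 1 := by simp
    rw [h1]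
    refine (ENNReal.ofReal_lt_ofReal_iff (by norm_num)).mpr ?_
    rw [div_lt_one (by linarith)]
    linarith
  refine ⟨fun ε hε => ?_, fun a f hf hE => ?_, Pool.Agent.R482.ST.ex_mul, Pool.Agent.R482.ST.ex_pow,
    Pool.Agent.R482.ST.ex_orbit⟩
  · obtain ⟨η, hη, hη1, h⟩ := part1 ε hε
    refine ⟨η, hη, hη1, fun a f τ θ hf hτ hE hθ => ?_⟩
    obtain ⟨E, h1, h2⟩ := h a f τ θ hf hτ hE hθ
    exact ⟨E, h1, hdim hτ hθ h1, h2⟩
  · have hall : ∀ j : ℕ, ∃ (θ : ℝ) (E : Set ℝ), 0 < θ ∧ dimH E < 1 ∧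
        ∀ α : ℝ, a < α → α ∉ E → AllGood f (1 / ((j : ℝ) + 1)) θ 1 α := by
      intro j
      obtain ⟨η, hη, hη1, h⟩ := part1 (1 / ((j : ℝ) + 1)) (by positivity)
      obtain ⟨E, h1, h2⟩ := h a f 0 (η / 2) hf le_rfl hE (by linarith)
      exact ⟨η / 2, E, by linarith, hdim le_rfl (by linarith) h1 (by linarith),
        fun α hα hαE => h2 α hα hαE 1⟩
    choose θ E hθ hE1 hE2 using hall
    have hnull : volume (⋃ j, E j) = 0 := by
      rw [measure_iUnion_null_iff]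
      intro j
      rw [← hausdorffMeasure_real]
      have h1 := hausdorffMeasure_of_dimH_lt (s := E j) (d := 1) (by simpa using hE1 j)
      simpa using h1
    rw [ae_iff]
    refine measure_mono_null (fun α hα => ?_) hnull
    rw [Set.mem_setOf_eq, Classical.not_imp] at hα
    by_contra hcon
    rw [Set.mem_iUnion] at hcon
    push Not at hcon
    refine hα.2 fun ε hε => ?_
    obtain ⟨j, hj⟩ := exists_nat_one_div_lt hε
    exact ⟨θ j, hθ j, allGood_mono hj.le (hE2 j α hα.1 (hcon j))⟩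

end Pool.Agent.Results.MP_5dd4bb_nt.StarshapedModuli
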