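import Pool.Agent.R303.SW.Apm

/-!
# The variance of primes in progressions to one modulus and the zeros of the zeta function

`G(X,Q)` is the variance of the problem.

1. If `ζ` has a zero with real part `> θ ≥ 1/2`, then for `κ ≥ 0` with `4θ(1-θ)(κ+1) ≤ 1`, `c > 0` and all
   large `X`: `∫_X^{X + cX/(log X)^κ} G(y,Q) dy ≥ X^(2θ+1)/Q` for all `1 ≤ Q ≤ X`.
2. Hence for all large `X` and all `Q ≤ X^(2θ-1-ε)` there is `y` in this window with
   `G(y,Q) ≥ y^(1+ε/2)`.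
3. Let `0 ≤ α ≤ 1`. If for every `0 < ε < 1` there are arbitrarily large `X` and at least one modulus
   `Q ≤ X^(α+ε)` such that `G(y,Q) ≤ X^(1+ε)` for all `y ∈ [X,2X]`, then all zeros of `ζ` have real part
   at most `(1+α)/2`. For `α = 0` the condition is equivalent to the Riemann hypothesis.
4. If the asymptotic formula of Q1 holds, all zeros of `ζ` have real part at most `3/4`.
-/

set_option autoImplicit false
set_option maxHeartbeats 4000000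

open Filter Topology Set MeasureTheory
open Pool.Agent.W190 (rh_free)
open Pool.Agent.R303.SW (ap_var GV L1 psiAP red psiAP_mono)

namespace Pool.Agent.Results.MP_5dd4bb_nt.VarianceAndZeros

/-- `ψ(X;Q,A)`: the sum of `Λ(n)` over `1 ≤ n ≤ X` with `n ≡ A mod Q`. -/
noncomputable def psi (X : ℝ) (Q A : ℕ) : ℝ :=
  ∑ n ∈ (Finset.Icc 1 ⌊X⌋₊).filter (fun n => n ≡ A [MOD Q]), ArithmeticFunction.vonMangoldt n

/-- The variance `G(X,Q)`. -/
noncomputable def G (X : ℝ) (Q : ℕ) : ℝ :=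
  ∑ A ∈ (Finset.range Q).filter (fun A => Nat.Coprime A Q), (psi X Q A - X / Nat.totient Q) ^ 2

lemma G_eq (X : ℝ) (Q : ℕ) : G X Q = GV X Q := rfl

theorem part1 (θ κ c : ℝ) (hθ : 1 / 2 ≤ θ) (hκ : 0 ≤ κ) (hcond : 4 * θ * (1 - θ) * (κ + 1) ≤ 1)
    (hc : 0 < c) (hz : ∃ s : ℂ, riemannZeta s = 0 ∧ θ < s.re) :
    ∀ᶠ X : ℝ in atTop, ∀ Q : ℕ, 1 ≤ Q → (Q : ℝ) ≤ X →
      X ^ (2 * θ + 1) / Q ≤ ∫ y in X..(X + c * X / Real.log X ^ κ), G y Q :=
  ap_var hθ hκ hc hcond hz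

theorem part2 (θ κ c ε : ℝ) (hθ : 1 / 2 ≤ θ) (hκ : 0 ≤ κ) (hcond : 4 * θ * (1 - θ) * (κ + 1) ≤ 1)
    (hc : 0 < c) (hε : 0 < ε) (hz : ∃ s : ℂ, riemannZeta s = 0 ∧ θ < s.re) :
    ∀ᶠ X : ℝ in atTop, ∀ Q : ℕ, 1 ≤ Q → (Q : ℝ) ≤ X ^ (2 * θ - 1 - ε) →
      ∃ y : ℝ, X ≤ y ∧ y ≤ X + c * X / Real.log X ^ κ ∧ y ^ (1 + ε / 2) ≤ G y Q := by
  have hs1 : θ < 1 := by
    obtain ⟨s, hs, hsθ⟩ := hz
    exact hsθ.trans (Pool.Agent.W190.zero_FF hs).2
  have h1 := part1 θ κ c hθ hκ hcond hc hz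
  have t1 : ∀ᶠ X : ℝ in atTop, c * (1 + c) ^ (1 + ε / 2) < X ^ (ε / 2) :=
    (tendsto_rpow_atTop (by linarith)).eventually_gt_atTop _
  filter_upwards [h1, t1, eventually_ge_atTop (3:ℝ)] with X g1 g2 g3 Q hQ hQX
  have hX : 0 < X := by linarith
  have hlog : 1 < Real.log X := by
    rw [Real.lt_log_iff_exp_lt hX]
    have := Real.exp_one_lt_d9
    linarith
  have hlk : 1 ≤ Real.log X ^ κ := Real.one_le_rpow hlog.le hκ
  have hQ0 : (0:ℝ) < Q := by exact_mod_cast hQ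
  have hQX' : (Q : ℝ) ≤ X := by
    refine hQX.trans ?_
    conv_rhs => rw [← Real.rpow_one X]
    exact Real.rpow_le_rpow_of_exponent_le (by linarith) (by linarith)
  by_contra hcon
  push Not at hcon
  set Y := X + c * X / Real.log X ^ κ with hY
  have hw0 : 0 ≤ c * X / Real.log X ^ κ := by positivity
  have hw1 : c * X / Real.log X ^ κ ≤ c * X := div_le_self (by positivity) hlk
  have hXY : X ≤ Y := by rw [hY]; linarith
  have h2 := g1 Q hQ hQX'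
  have h3 : ∫ y in X..Y, G y Q ≤ (Y - X) * Y ^ (1 + ε / 2) := by
    have h4 := intervalIntegral.norm_integral_le_of_norm_le_const (a := X) (b := Y)
      (f := fun y => G y Q) (C := Y ^ (1 + ε / 2)) (fun y hy => by
      rw [uIoc_of_le hXY] at hy
      rw [Real.norm_of_nonneg (show 0 ≤ G y Q from Finset.sum_nonneg fun _ _ => sq_nonneg _)]
      refine (hcon y hy.1.le hy.2).le.trans ?_
      exact Real.rpow_le_rpow (by linarith [hy.1]) hy.2 (by linarith))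
    rw [abs_of_nonneg (by linarith : 0 ≤ Y - X)] at h4
    have := (le_abs_self _).trans h4
    linarith
  have h4 : X ^ (2 + ε) ≤ X ^ (2 * θ + 1) / Q := by
    rw [le_div_iff₀ hQ0]
    calc X ^ (2 + ε) * Q ≤ X ^ (2 + ε) * X ^ (2 * θ - 1 - ε) := by gcongr
      _ = X ^ (2 * θ + 1) := by
          rw [← Real.rpow_add hX]
          congr 1
          ring
  have h5 : (Y - X) * Y ^ (1 + ε / 2) ≤ c * X * ((1 + c) * X) ^ (1 + ε / 2) := by
    have e1 : Y - X ≤ c * X := by rw [hY]; linarith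
    have e2 : Y ≤ (1 + c) * X := by rw [hY]; linarith
    have e3 : 0 ≤ Y := by linarith
    exact mul_le_mul e1 (Real.rpow_le_rpow e3 e2 (by linarith)) (by positivity) (by positivity)
  have h6 : c * X * ((1 + c) * X) ^ (1 + ε / 2) < X ^ (2 + ε) := by
    calc c * X * ((1 + c) * X) ^ (1 + ε / 2) = (c * (1 + c) ^ (1 + ε / 2)) * (X ^ (1 + ε / 2) * X) := by
          rw [Real.mul_rpow (by linarith) hX.le]
          ring
      _ < X ^ (ε / 2) * (X ^ (1 + ε / 2) * X) := by gcongr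
      _ = X ^ (2 + ε) := by
          rw [← Real.rpow_add_one hX.ne', ← Real.rpow_add hX]
          congr 1
          ring
  linarith

theorem part3 (α : ℝ) (hα : 0 ≤ α) (hα1 : α ≤ 1)
    (h : ∀ ε : ℝ, 0 < ε → ε < 1 → ∃ᶠ X : ℝ in atTop, ∃ Q : ℕ, 1 ≤ Q ∧ (Q : ℝ) ≤ X ^ (α + ε) ∧
      ∀ y : ℝ, X ≤ y → y ≤ 2 * X → G y Q ≤ X ^ (1 + ε)) (s : ℂ) (hs : riemannZeta s = 0) :
    s.re ≤ (1 + α) / 2 := by
  by_contra hcon
  push Not at hcon
  have hs1 : s.re < 1 := (Pool.Agent.W190.zero_FF hs).2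
  set θ := ((1 + α) / 2 + s.re) / 2 with hθ
  have h1 : (1 + α) / 2 < θ := by rw [hθ]; linarith
  have h2 : θ < s.re := by rw [hθ]; linarith
  set ε := (2 * θ - 1 - α) / 2 with hε
  have hε0 : 0 < ε := by rw [hε]; linarith
  have hε1 : ε < 1 := by rw [hε]; linarith
  have h3 := part2 θ 0 1 ε (by linarith) le_rfl (by nlinarith [sq_nonneg (2 * θ - 1)]) one_pos hε0
    ⟨s, hs, h2⟩
  obtain ⟨X, ⟨Q, a1, a2, a3⟩, a4, a5⟩ :=
    ((h (ε / 4) (by linarith) (by linarith)).and_eventually (h3.and (eventually_gt_atTop 1))).exists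
  have hX : 0 < X := by linarith
  obtain ⟨y, b2, b3, b4⟩ := a4 Q a1 (by
    refine a2.trans (Real.rpow_le_rpow_of_exponent_le a5.le ?_)
    rw [hε]
    linarith)
  rw [Real.rpow_zero, div_one, one_mul] at b3
  have h5 := b4.trans (a3 y b2 (by linarith))
  have h6 : X ^ (1 + ε / 4) < y ^ (1 + ε / 2) := by
    calc X ^ (1 + ε / 4) < X ^ (1 + ε / 2) := Real.rpow_lt_rpow_of_exponent_lt a5 (by linarith)
      _ ≤ y ^ (1 + ε / 2) := Real.rpow_le_rpow hX.le b2 (by linarith)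
  linarith

theorem part4 : RiemannHypothesis ↔ ∀ ε : ℝ, 0 < ε → ε < 1 →
      ∃ᶠ X : ℝ in atTop, ∃ Q : ℕ, 1 ≤ Q ∧ (Q : ℝ) ≤ X ^ ε ∧
        ∀ y : ℝ, X ≤ y → y ≤ 2 * X → G y Q ≤ X ^ (1 + ε) := by
  constructor
  · intro hrh ε hε hε1
    obtain ⟨C, hC0, hC⟩ := Pool.Agent.W190.psi_of_free (1 / 2) le_rfl (rh_free.1 hrh) (1 / 2 + ε / 4)
      (by linarith) (by linarith)
    have t1 : ∀ᶠ X : ℝ in atTop, (C * 2 ^ (1 / 2 + ε / 4)) ^ 2 ≤ X ^ (ε / 2) :=
      (tendsto_rpow_atTop (by linarith)).eventually_ge_atTop _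
    refine Eventually.frequently ?_
    filter_upwards [t1, eventually_ge_atTop (1:ℝ)] with X g1 g2
    have hX : 0 < X := by linarith
    refine ⟨1, le_rfl, ?_, fun y hy1 hy2 => ?_⟩
    · rw [Nat.cast_one]
      exact Real.one_le_rpow g2 hε.le
    have e1 : G y 1 = (Chebyshev.psi y - y) ^ 2 := by
      have e2 : psi y 1 0 = Chebyshev.psi y := by
        rw [← Pool.Agent.W190.SF_psi]
        unfold psi Pool.Agent.W190.SF
        rw [Finset.filter_true_of_mem (fun n _ => Nat.modEq_one)]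
      have e3 : (Finset.range 1).filter (fun A => Nat.Coprime A 1) = {0} := by
        decide
      unfold G
      rw [e3, Finset.sum_singleton, e2, Nat.totient_one, Nat.cast_one, div_one]
    rw [e1, ← sq_abs]
    have h1 : |Chebyshev.psi y - y| ≤ C * 2 ^ (1 / 2 + ε / 4) * X ^ (1 / 2 + ε / 4) := by
      refine (hC y (by linarith)).trans ?_
      calc C * y ^ (1 / 2 + ε / 4) ≤ C * (2 * X) ^ (1 / 2 + ε / 4) :=
            mul_le_mul_of_nonneg_left (Real.rpow_le_rpow (by linarith) hy2 (by linarith)) hC0.le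
        _ = C * 2 ^ (1 / 2 + ε / 4) * X ^ (1 / 2 + ε / 4) := by
            rw [Real.mul_rpow (by norm_num) hX.le]
            ring
    calc |Chebyshev.psi y - y| ^ 2 ≤ (C * 2 ^ (1 / 2 + ε / 4) * X ^ (1 / 2 + ε / 4)) ^ 2 :=
          pow_le_pow_left₀ (abs_nonneg _) h1 2
      _ = (C * 2 ^ (1 / 2 + ε / 4)) ^ 2 * (X ^ (1 / 2 + ε / 4)) ^ 2 := by ring
      _ ≤ X ^ (ε / 2) * (X ^ (1 / 2 + ε / 4)) ^ 2 := by gcongr
      _ = X ^ (1 + ε) := by
          rw [← Real.rpow_natCast, ← Real.rpow_mul hX.le, ← Real.rpow_add hX]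
          congr 1
          push_cast
          ring
  · intro h
    rw [rh_free]
    intro s hs hz
    have h2 := part3 0 le_rfl (by norm_num) (fun ε h1 h2 => by
      simpa only [zero_add] using h ε h1 h2) s hz
    linarith

/-- The constant `C_Q`. -/
noncomputable def CQ (Q : ℕ) : ℝ :=
  ∑ p ∈ Q.primeFactors, Real.log p / (p - 1) + Real.eulerMascheroniConstant + Real.log (2 * Real.pi)

lemma CQ_nonneg (Q : ℕ) : 0 ≤ CQ Q := by
  have h1 : 0 ≤ ∑ p ∈ Q.primeFactors, Real.log p / ((p : ℝ) - 1) := by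
    refine Finset.sum_nonneg fun p hp => ?_
    have h2 := (Nat.prime_of_mem_primeFactors hp).two_le
    have h3 : (2:ℝ) ≤ p := by exact_mod_cast h2
    exact div_nonneg (Real.log_natCast_nonneg _) (by linarith)
  have h2 := Real.one_half_lt_eulerMascheroniConstant
  have h3 : 0 ≤ Real.log (2 * Real.pi) := Real.log_nonneg (by nlinarith [Real.pi_gt_three])
  unfold CQ
  linarith

theorem part5 (h : ∀ ε : ℝ, 0 < ε → ∀ δ : ℝ, 0 < δ → ∀ᶠ X : ℝ in atTop, ∀ Q : ℕ,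
      X ^ (1 / 2 + ε) < Q → (Q : ℝ) < X ^ (1 - ε) →
        |G X Q - X * Real.log Q + CQ Q * X| ≤ δ * X) (s : ℂ) (hs : riemannZeta s = 0) :
    s.re ≤ 3 / 4 := by
  have key := part3 (1 / 2) (by norm_num) (by norm_num) (fun ε hε hε1 => by
    set e := ε / 8 with he
    have he0 : 0 < e := by rw [he]; linarith
    have he1 : e < 1 / 8 := by rw [he]; linarith
    obtain ⟨X₀, hX₀⟩ := eventually_atTop.1 (h e he0 1 one_pos)
    have t1 : ∀ᶠ X : ℝ in atTop, (2:ℝ) ^ (1 / 2 + e) < X ^ e :=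
      (tendsto_rpow_atTop he0).eventually_gt_atTop _
    have t2 : ∀ᶠ X : ℝ in atTop, (2:ℝ) < X ^ e :=
      (tendsto_rpow_atTop he0).eventually_gt_atTop _
    have t3 : ∀ᶠ X : ℝ in atTop, ‖Real.log X‖ ≤ 1 / 8 * ‖X ^ ε‖ :=
      (isLittleO_log_rpow_atTop hε).def (by norm_num)
    refine Eventually.frequently ?_
    filter_upwards [t1, t2, t3, eventually_ge_atTop X₀, eventually_ge_atTop (3:ℝ)] with X g1 g2 g3 g4 g5
    have hX : 0 < X := by linarith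
    have hX1 : 1 ≤ X := by linarith
    have hlog : 1 < Real.log X := by
      rw [Real.lt_log_iff_exp_lt hX]
      have := Real.exp_one_lt_d9
      linarith
    have hP1 : 1 ≤ X ^ (1 / 2 + 2 * e) := Real.one_le_rpow hX1 (by linarith)
    have hQ1 : X ^ (1 / 2 + 2 * e) ≤ ⌈X ^ (1 / 2 + 2 * e)⌉₊ := Nat.le_ceil _
    have hQ2 : (⌈X ^ (1 / 2 + 2 * e)⌉₊ : ℝ) < X ^ (1 / 2 + 3 * e) := by
      calc (⌈X ^ (1 / 2 + 2 * e)⌉₊ : ℝ) < X ^ (1 / 2 + 2 * e) + 1 := Nat.ceil_lt_add_one (by positivity)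
        _ ≤ 2 * X ^ (1 / 2 + 2 * e) := by linarith
        _ < X ^ e * X ^ (1 / 2 + 2 * e) := by gcongr
        _ = X ^ (1 / 2 + 3 * e) := by rw [← Real.rpow_add hX]; congr 1; ring
    have hQ0 : 1 ≤ ⌈X ^ (1 / 2 + 2 * e)⌉₊ := by
      rw [Nat.one_le_ceil_iff]
      linarith
    refine ⟨⌈X ^ (1 / 2 + 2 * e)⌉₊, hQ0, ?_, fun y hy1 hy2 => ?_⟩
    · refine hQ2.le.trans (Real.rpow_le_rpow_of_exponent_le hX1 ?_)
      rw [he]
      linarith
    · set Q := ⌈X ^ (1 / 2 + 2 * e)⌉₊ with hQ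
      have hy0 : 0 < y := by linarith
      have a1 : y ^ (1 / 2 + e) < Q := by
        refine lt_of_lt_of_le ?_ hQ1
        calc y ^ (1 / 2 + e) ≤ (2 * X) ^ (1 / 2 + e) := Real.rpow_le_rpow hy0.le hy2 (by linarith)
          _ = 2 ^ (1 / 2 + e) * X ^ (1 / 2 + e) := Real.mul_rpow (by norm_num) hX.le
          _ < X ^ e * X ^ (1 / 2 + e) := by gcongr
          _ = X ^ (1 / 2 + 2 * e) := by rw [← Real.rpow_add hX]; congr 1; ring
      have a2 : (Q : ℝ) < y ^ (1 - e) := by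
        calc (Q : ℝ) < X ^ (1 / 2 + 3 * e) := hQ2
          _ ≤ X ^ (1 - e) := Real.rpow_le_rpow_of_exponent_le hX1 (by linarith)
          _ ≤ y ^ (1 - e) := Real.rpow_le_rpow hX.le hy1 (by linarith)
      have a3 := hX₀ y (by linarith) Q a1 a2
      have a4 := (abs_le.1 a3).2
      have a5 := mul_nonneg (CQ_nonneg Q) hy0.le
      have a6 : Real.log Q ≤ Real.log X := by
        refine Real.log_le_log (by exact_mod_cast hQ0) (hQ2.le.trans ?_)
        conv_rhs => rw [← Real.rpow_one X]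
        exact Real.rpow_le_rpow_of_exponent_le hX1 (by linarith)
      have a7 : 0 ≤ Real.log Q := Real.log_natCast_nonneg _
      rw [Real.norm_of_nonneg (by linarith), Real.norm_of_nonneg (by positivity)] at g3
      calc G y Q ≤ y * Real.log Q + y := by linarith
        _ ≤ (2 * X) * Real.log X + (2 * X) * Real.log X := by
            have b1 : y * Real.log Q ≤ (2 * X) * Real.log X := by gcongr
            have b2 : (2 * X) * 1 ≤ (2 * X) * Real.log X := by gcongr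
            linarith
        _ = 4 * X * Real.log X := by ring
        _ ≤ 4 * X * (1 / 8 * X ^ ε) := by gcongr
        _ ≤ X ^ ε * X := by
            have : 0 ≤ X * X ^ ε := by positivity
            linarith
        _ = X ^ (1 + ε) := by
            rw [← Real.rpow_add_one hX.ne']
            congr 1
            ring) s hs
  linarith

/-- The variance of primes in progressions to one modulus and the zeros of the zeta function. -/
theorem result :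
    (∀ θ κ c : ℝ, 1 / 2 ≤ θ → 0 ≤ κ → 4 * θ * (1 - θ) * (κ + 1) ≤ 1 → 0 < c →
      (∃ s : ℂ, riemannZeta s = 0 ∧ θ < s.re) →
      ∀ᶠ X : ℝ in atTop, ∀ Q : ℕ, 1 ≤ Q → (Q : ℝ) ≤ X →
        X ^ (2 * θ + 1) / Q ≤ ∫ y in X..(X + c * X / Real.log X ^ κ), G y Q) ∧
    (∀ θ κ c ε : ℝ, 1 / 2 ≤ θ → 0 ≤ κ → 4 * θ * (1 - θ) * (κ + 1) ≤ 1 → 0 < c → 0 < ε →
      (∃ s : ℂ, riemannZeta s = 0 ∧ θ < s.re) →
      ∀ᶠ X : ℝ in atTop, ∀ Q : ℕ, 1 ≤ Q → (Q : ℝ) ≤ X ^ (2 * θ - 1 - ε) →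
        ∃ y : ℝ, X ≤ y ∧ y ≤ X + c * X / Real.log X ^ κ ∧ y ^ (1 + ε / 2) ≤ G y Q) ∧
    (∀ α : ℝ, 0 ≤ α → α ≤ 1 →
      (∀ ε : ℝ, 0 < ε → ε < 1 → ∃ᶠ X : ℝ in atTop, ∃ Q : ℕ, 1 ≤ Q ∧ (Q : ℝ) ≤ X ^ (α + ε) ∧
        ∀ y : ℝ, X ≤ y → y ≤ 2 * X → G y Q ≤ X ^ (1 + ε)) →
      ∀ s : ℂ, riemannZeta s = 0 → s.re ≤ (1 + α) / 2) ∧
    (RiemannHypothesis ↔ ∀ ε : ℝ, 0 < ε → ε < 1 →
      ∃ᶠ X : ℝ in atTop, ∃ Q : ℕ, 1 ≤ Q ∧ (Q : ℝ) ≤ X ^ ε ∧
        ∀ y : ℝ, X ≤ y → y ≤ 2 * X → G y Q ≤ X ^ (1 + ε)) ∧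
    ((∀ ε : ℝ, 0 < ε → ∀ δ : ℝ, 0 < δ → ∀ᶠ X : ℝ in atTop, ∀ Q : ℕ,
      X ^ (1 / 2 + ε) < Q → (Q : ℝ) < X ^ (1 - ε) →
        |G X Q - X * Real.log Q + CQ Q * X| ≤ δ * X) →
      ∀ s : ℂ, riemannZeta s = 0 → s.re ≤ 3 / 4) :=
  ⟨part1, part2, part3, part4, part5⟩

end Pool.Agent.Results.MP_5dd4bb_nt.VarianceAndZeros
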