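import Mathlib
import Pool.Agent.R528.RM.Var4

set_option autoImplicit false

/-!
# The variance over residue classes in random models of the primes, uniformly in the modulus

The conjecture of Friedlander and Goldston concerns the sum over the classes modulo `q` of the
squares of the errors in the prime number theorem for arithmetic progressions, uniformly in `q`.  We
prove an asymptotic formula, uniform in `q`, in EVERY sequential random model of the primes: the
integers are decided one after the other, only integers coprime to a fixed `Q` can be chosen, and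
the conditional probability of choosing `n + 1` (coprime to `Q`) given the past is asymptotic to
`(Q / φ(Q)) / log n`; no independence is assumed (for `Q = 1` Cramér's model and the Hawkins random
sieve are examples).  Write `π(x; q, a)` for the number of members up to `x` in the class `a`, and
`C(x; q, a)` for the sum of the conditional probabilities of the integers up to `x` of this class.
Almost surely

* `∑_{a mod q} (π(x; q, a) - C(x; q, a))² ~ x / log x`, uniformly for `(log x)⁵ ≤ q ≤ x`;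
* if moreover the conditional probabilities are nonincreasing (along the integers coprime to `Q`),
  then `∑_a (π(x; q, a) - π(x) / φ_Q(q))² ~ x / log x`, uniformly for
  `(log x)⁵ ≤ q ≤ x / (log x)²`, where `a` runs over the `φ_Q(q)` admissible classes modulo `q`.
-/

open MeasureTheory Filter
open scoped Topology

namespace Pool.Agent.Results.MP_5dd4bb_nt.VarianceSievedModels

/-- the admissible classes: residues `a` modulo `q` without common factor with `gcd(q, Q)` -/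
def classes (Q q : ℕ) : Finset ℕ := (Finset.range q).filter (fun a => Nat.Coprime a (Nat.gcd q Q))

/-- the number of elements of `S` in `[1, x]` -/
noncomputable def piS (S : Set ℕ) (x : ℕ) : ℕ := Set.ncard {n : ℕ | n ∈ S ∧ 1 ≤ n ∧ n ≤ x}

/-- the number of elements of `S` in `[1, x]` congruent to `a` modulo `q` -/
noncomputable def piA (S : Set ℕ) (x q a : ℕ) : ℕ := Set.ncard {n : ℕ | n ∈ S ∧ 1 ≤ n ∧ n ≤ x ∧ n ≡ a [MOD q]}

/-- the sum of the conditional probabilities, given the past, of the integers of `[1, x]` congruent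
to `a` modulo `q` -/
noncomputable def expected {Ω : Type} [mΩ : MeasurableSpace Ω] (μ : Measure Ω)
    (ℱ : Filtration ℕ mΩ) (A : ℕ → Set Ω) (x q a : ℕ) (ω : Ω) : ℝ :=
  ∑ n ∈ (Finset.Icc 1 x).filter (fun n => n ≡ a [MOD q]),
    (μ[(A n).indicator (fun _ => (1 : ℝ)) | ℱ (n - 1)]) ω

open Pool.Agent.R528.RM

lemma Ncl_card {Ω : Type} {A : ℕ → Set Ω} (R : Finset ℕ) (ω : Ω) [DecidablePred fun n => ω ∈ A n] :
    Ncl A R ω = ((R.filter (fun n => ω ∈ A n)).card : ℝ) := by
  unfold Ncl In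
  rw [Finset.card_filter]
  push_cast
  refine Finset.sum_congr rfl fun n _ => ?_
  rw [Set.indicator_apply]

lemma piA_eq {Ω : Type} {A : ℕ → Set Ω} {Q : ℕ} (hcop : ∀ n, ¬ Nat.Coprime n Q → A n = ∅) {x q a : ℕ} (ha : a < q) (ω : Ω) :
    (piA {k | ω ∈ A k} x q a : ℝ) = Ncl A (cls Q q a 0 x) ω := by
  classical
  rw [Ncl_card]
  unfold piA
  have h1 : {n : ℕ | n ∈ {k | ω ∈ A k} ∧ 1 ≤ n ∧ n ≤ x ∧ n ≡ a [MOD q]} =
      (((cls Q q a 0 x).filter (fun n => ω ∈ A n) : Finset ℕ) : Set ℕ) := by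
    ext n
    simp only [Set.mem_ofPred_eq, Finset.coe_filter, mem_cls]
    constructor
    · rintro ⟨h1, h2, h3, h4⟩
      refine ⟨⟨⟨by omega, h3⟩, ?_, ?_⟩, h1⟩
      · rw [Nat.ModEq, Nat.mod_eq_of_lt ha] at h4
        exact h4
      · by_contra hc
        rw [hcop n hc] at h1
        exact h1
    · rintro ⟨⟨⟨h1, h2⟩, h3, h4⟩, h5⟩
      refine ⟨h5, by omega, h2, ?_⟩
      rw [Nat.ModEq, Nat.mod_eq_of_lt ha]
      exact h3
  rw [h1, Set.ncard_coe_finset]

lemma piS_eq {Ω : Type} {A : ℕ → Set Ω} {Q : ℕ} (hcop : ∀ n, ¬ Nat.Coprime n Q → A n = ∅) {x : ℕ} (ω : Ω) :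
    (piS {k | ω ∈ A k} x : ℝ) = Ncl A (cls Q 1 0 0 x) ω := by
  rw [← piA_eq hcop one_pos]
  have h1 : {n : ℕ | n ∈ {k | ω ∈ A k} ∧ 1 ≤ n ∧ n ≤ x ∧ n ≡ 0 [MOD 1]} = {n : ℕ | n ∈ {k | ω ∈ A k} ∧ 1 ≤ n ∧ n ≤ x} := by
    ext n
    simp only [Set.mem_ofPred_eq, Nat.modEq_one, and_true]
  unfold piS piA
  rw [h1]

lemma expected_eq {Ω : Type} {m0 : MeasurableSpace Ω} {μ : Measure Ω} {ℱ : Filtration ℕ m0} {A : ℕ → Set Ω} {Q : ℕ}
    (hcop : ∀ n, ¬ Nat.Coprime n Q → A n = ∅) {x q a : ℕ} (ha : a < q) (ω : Ω) :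
    expected μ ℱ A x q a ω = VS μ ℱ A (cls Q q a 0 x) ω := by
  classical
  unfold expected VS
  have hsub : cls Q q a 0 x ⊆ (Finset.Icc 1 x).filter (fun n => n ≡ a [MOD q]) := by
    intro n hn
    obtain ⟨⟨h1, h2⟩, h3, h4⟩ := mem_cls.1 hn
    refine Finset.mem_filter.2 ⟨Finset.mem_Icc.2 ⟨by omega, h2⟩, ?_⟩
    rw [Nat.ModEq, Nat.mod_eq_of_lt ha]
    exact h3
  rw [← Finset.sum_subset hsub]
  · refine Finset.sum_congr rfl fun n hn => ?_
    obtain ⟨⟨h1, h2⟩, h3, h4⟩ := mem_cls.1 hn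
    obtain ⟨m, rfl⟩ : ∃ m, n = m + 1 := ⟨n - 1, by omega⟩
    unfold dens
    rw [Nat.add_sub_cancel]
  · intro n hn hn2
    obtain ⟨h1, h2⟩ := Finset.mem_filter.1 hn
    have h1' := Finset.mem_Icc.1 h1
    have h3 : ¬ Nat.Coprime n Q := by
      intro h3
      apply hn2
      rw [Nat.ModEq, Nat.mod_eq_of_lt ha] at h2
      exact mem_cls.2 ⟨⟨by omega, h1'.2⟩, h2, h3⟩
    rw [hcop n h3, Set.indicator_empty]
    have h5 : μ[(fun _ : Ω => (0 : ℝ)) | ℱ (n - 1)] = 0 := condExp_zero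
    rw [h5]
    rfl

end Pool.Agent.Results.MP_5dd4bb_nt.VarianceSievedModels

open Pool.Agent.Results.MP_5dd4bb_nt.VarianceSievedModels

/-- Let `A n` be the event that `n` belongs to a random set adapted to a filtration `ℱ`, let
`Q ≥ 1`, let no integer which is not coprime to `Q` be chosen, and let the conditional probability of
`A (n + 1)` given `ℱ n`, times `log n`, tend to `Q / φ(Q)` along the `n` with `n + 1` coprime to `Q`,
almost surely.  First: almost surely the sum over the classes `a` modulo `q` of the squares of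
`π(x; q, a)` minus the sum of the conditional probabilities of the integers up to `x` in the class is
asymptotic to `x / log x`, uniformly for `(log x)⁵ ≤ q ≤ x`.  Second: if almost surely the
conditional probabilities are nonincreasing along the integers coprime to `Q`, then almost surely the
sum over the admissible classes `a` modulo `q` of `(π(x; q, a) - π(x) / φ_Q(q))²` is asymptotic to
`x / log x`, uniformly for `(log x)⁵ ≤ q ≤ x / (log x)²`. -/
theorem Pool.Agent.Results.MP_5dd4bb_nt.VarianceSievedModels.result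
    {Ω : Type} [mΩ : MeasurableSpace Ω] (μ : Measure Ω) [IsProbabilityMeasure μ]
    (ℱ : Filtration ℕ mΩ) (A : ℕ → Set Ω) (hA : ∀ n, MeasurableSet[ℱ n] (A n))
    (Q : ℕ) (hQ : 0 < Q) (hcop : ∀ n, ¬ Nat.Coprime n Q → A n = ∅)
    (hd : ∀ᵐ ω ∂μ, Tendsto (fun n : ℕ =>
      (μ[(A (n + 1)).indicator (fun _ => (1 : ℝ)) | ℱ n]) ω * Real.log n)
      (atTop ⊓ 𝓟 {n : ℕ | Nat.Coprime (n + 1) Q}) (𝓝 ((Q : ℝ) / Nat.totient Q))) :
    (∀ᵐ ω ∂μ, ∀ ε : ℝ, 0 < ε → ∀ᶠ x : ℕ in atTop, ∀ q : ℕ, Real.log x ^ 5 ≤ q → q ≤ x →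
      |∑ a ∈ Finset.range q, ((piA {k | ω ∈ A k} x q a : ℝ) - expected μ ℱ A x q a ω) ^ 2 -
        (x : ℝ) / Real.log x| ≤ ε * ((x : ℝ) / Real.log x)) ∧
    ((∀ᵐ ω ∂μ, ∀ m n : ℕ, m ≤ n → Nat.Coprime (m + 1) Q → Nat.Coprime (n + 1) Q →
      (μ[(A (n + 1)).indicator (fun _ => (1 : ℝ)) | ℱ n]) ω ≤
      (μ[(A (m + 1)).indicator (fun _ => (1 : ℝ)) | ℱ m]) ω) →
      ∀ᵐ ω ∂μ, ∀ ε : ℝ, 0 < ε → ∀ᶠ x : ℕ in atTop, ∀ q : ℕ, Real.log x ^ 5 ≤ q →
        (q : ℝ) ≤ x / Real.log x ^ 2 →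
        |∑ a ∈ classes Q q, ((piA {k | ω ∈ A k} x q a : ℝ) -
          (piS {k | ω ∈ A k} x : ℝ) / (classes Q q).card) ^ 2 -
          (x : ℝ) / Real.log x| ≤ ε * ((x : ℝ) / Real.log x)) := by
  constructor
  · filter_upwards [Pool.Agent.R528.RM.var_law (μ := μ) (ℱ := ℱ) hA Q hQ hcop hd] with ω hω ε hε
    filter_upwards [hω ε hε, Pool.Agent.R528.RM.ev_log 1] with x hx hx1 q hq1 hq2
    have hq0 : 1 ≤ q := by
      have h1 : (1 : ℝ) ≤ q := (one_le_pow₀ hx1).trans hq1
      exact_mod_cast h1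
    have h1 := hx q hq0 hq2 hq1
    have h2 : Pool.Agent.R528.RM.Vq μ ℱ A q x ω =
        ∑ a ∈ Finset.range q, ((piA {k | ω ∈ A k} x q a : ℝ) - expected μ ℱ A x q a ω) ^ 2 := by
      unfold Pool.Agent.R528.RM.Vq
      refine Finset.sum_congr rfl fun a ha => ?_
      rw [Pool.Agent.R528.RM.Dc_adm hcop, piA_eq hcop (Finset.mem_range.1 ha), expected_eq hcop (Finset.mem_range.1 ha),
        Pool.Agent.R528.RM.CS_eq]
    rw [← h2]
    exact h1
  · intro hmono
    filter_upwards [Pool.Agent.R528.RM.var_adm (μ := μ) (ℱ := ℱ) hA Q hQ hcop hd hmono] with ω hω ε hε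
    filter_upwards [hω ε hε, Pool.Agent.R528.RM.ev_log 1] with x hx hx1 q hq1 hq2
    have hq0 : 1 ≤ q := by
      have h1 : (1 : ℝ) ≤ q := (one_le_pow₀ hx1).trans hq1
      exact_mod_cast h1
    have h1 := hx q hq0 hq1 hq2
    have h2 : ∑ a ∈ Pool.Agent.R528.RM.adm Q q, Pool.Agent.R528.RM.Dv A Q x q a ω ^ 2 =
        ∑ a ∈ classes Q q, ((piA {k | ω ∈ A k} x q a : ℝ) - (piS {k | ω ∈ A k} x : ℝ) / (classes Q q).card) ^ 2 := by
      refine Finset.sum_congr rfl fun a ha => ?_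
      unfold Pool.Agent.R528.RM.Dv
      rw [piA_eq hcop (Pool.Agent.R528.RM.mem_adm.1 ha).1, piS_eq hcop]
      rfl
    rw [← h2]
    exact h1
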